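import Mathlib

/-!
# TANK B112: algebra over one field of characteristic `p`, part 1

* `exists_der_rel`: a derivation with value `1` at `a ∉ K ⊇ F ^ p` which is trivial on `K`;
* `exists_der`: an element of a field of characteristic `p` which is not a `p`-th power is not a
  constant of all derivations.
-/

set_option autoImplicit false

open Polynomial

namespace Pool.Agent.TWB

universe u

section field

variable {F : Type u} [Field F]

/-- An element outside of a subfield `K` which contains the `p`-th powers: there is a derivation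
with value `1` which is trivial on `K`. -/
theorem exists_der_rel (p : ℕ) [hp : Fact p.Prime] [CharP F p] {K : Subfield F}
    (hK : ∀ x : F, x ^ p ∈ K) {a : F} (ha : a ∉ K) :
    ∃ D : Derivation ℤ F F, D a = 1 ∧ ∀ x ∈ K, D x = 0 := by
  classical
  let S : Set (Subfield F) := {M | K ≤ M ∧ a ∉ M}
  have h0 : K ∈ S := ⟨le_refl _, ha⟩
  obtain ⟨M, -, hM⟩ := zorn_le_nonempty₀ S (fun c hc hch M₀ hM₀ => by
    have hdir : DirectedOn (· ≤ ·) c := hch.directedOn
    have hne : c.Nonempty := ⟨M₀, hM₀⟩
    refine ⟨sSup c, ⟨(hc hM₀).1.trans (le_sSup hM₀), ?_⟩, fun M hM => le_sSup hM⟩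
    intro h1
    rw [Subfield.mem_sSup_of_directedOn hne hdir] at h1
    obtain ⟨M, hMc, haM⟩ := h1
    exact (hc hMc).2 haM) _ h0
  have hMS : M ∈ S := hM.prop
  have hpow : ∀ x : F, x ^ p ∈ M := fun x => hMS.1 (hK x)
  -- minimal polynomials
  have hmin : ∀ x : F, x ∉ M → minpoly M x = X ^ p - C (⟨x ^ p, hpow x⟩ : M) := by
    intro x hx
    symm
    refine minpoly.eq_of_irreducible_of_monic ?_ ?_ ?_
    · refine X_pow_sub_C_irreducible_of_prime hp.out ?_
      intro b hb
      have h1 : (b : F) ^ p = x ^ p := congrArg Subtype.val hb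
      have h2 : (b : F) = x := frobenius_inj F p h1
      exact hx (h2 ▸ b.2)
    · rw [map_sub, map_pow, aeval_X, aeval_C]
      exact sub_self _
    · exact monic_X_pow_sub_C _ hp.out.ne_zero
  have hint : ∀ x : F, IsIntegral M x := by
    intro x
    exact ⟨X ^ p - C (⟨x ^ p, hpow x⟩ : M), monic_X_pow_sub_C _ hp.out.ne_zero, by
      rw [eval₂_sub, eval₂_pow, eval₂_X, eval₂_C]
      exact sub_self _⟩
  have hfin : ∀ x : F, x ∉ M → Module.finrank M (IntermediateField.adjoin M {x}) = p := by
    intro x hx
    rw [IntermediateField.adjoin.finrank (hint x), hmin x hx]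
    exact natDegree_X_pow_sub_C
  have htop : ∀ x : F, x ∈ IntermediateField.adjoin M {a} := by
    intro x
    by_cases hx : x ∈ M
    · exact (IntermediateField.adjoin M {a}).algebraMap_mem (⟨x, hx⟩ : M)
    have h1 : a ∈ IntermediateField.adjoin M {x} := by
      by_contra h2
      have h3 : (IntermediateField.adjoin M {x}).toSubfield ∈ S := by
        refine ⟨fun y hy => ?_, h2⟩
        exact (IntermediateField.adjoin M {x}).algebraMap_mem (⟨y, hMS.1 hy⟩ : M)
      have h4 : M ≤ (IntermediateField.adjoin M {x}).toSubfield := fun y hy =>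
        (IntermediateField.adjoin M {x}).algebraMap_mem (⟨y, hy⟩ : M)
      have h5 := hM.le_of_ge h3 h4
      exact hx (h5 (IntermediateField.mem_adjoin_simple_self M x))
    have h2 : IntermediateField.adjoin M {a} ≤ IntermediateField.adjoin M {x} := by
      rw [IntermediateField.adjoin_simple_le_iff]
      exact h1
    have : FiniteDimensional M (IntermediateField.adjoin M {x}) :=
      IntermediateField.adjoin.finiteDimensional (hint x)
    have h3 : IntermediateField.adjoin M {a} = IntermediateField.adjoin M {x} := by
      refine IntermediateField.eq_of_le_of_finrank_eq h2 ?_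
      rw [hfin x hx, hfin a hMS.2]
    rw [h3]
    exact IntermediateField.mem_adjoin_simple_self M x
  have hsurj : Function.Surjective (aeval a : M[X] →ₐ[M] F) := by
    intro x
    have h1 := htop x
    rw [← IntermediateField.mem_toSubalgebra,
      IntermediateField.adjoin_simple_toSubalgebra_of_isAlgebraic (hint a).isAlgebraic,
      Algebra.adjoin_singleton_eq_range_aeval] at h1
    exact h1
  have hker : ∀ f : M[X], (aeval a : M[X] →ₐ[M] F) f = 0 →
      (aeval a : M[X] →ₐ[M] F) ((derivative' : Derivation M M[X] M[X]) f) = 0 := by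
    intro f hf
    obtain ⟨g, rfl⟩ := minpoly.dvd M a hf
    have h1 : (derivative' : Derivation M M[X] M[X]) (minpoly M a * g) =
        minpoly M a * derivative g := by
      change derivative (minpoly M a * g) = _
      rw [derivative_mul, hmin a hMS.2]
      have h2 : ((p : ℕ) : M[X]) = 0 := by
        have : CharP M[X] p := inferInstance
        exact CharP.cast_eq_zero _ p
      have h3 : derivative (X ^ p - C (⟨a ^ p, hpow a⟩ : M)) = 0 := by
        rw [derivative_sub, derivative_C, derivative_X_pow, sub_zero, map_natCast, h2, zero_mul]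
      rw [h3, zero_mul, zero_add]
    rw [h1, map_mul, minpoly.aeval, zero_mul]
  refine ⟨(Derivation.liftOfSurjective (f := (aeval a : M[X] →ₐ[M] F)) hsurj hker).restrictScalars
    ℤ, ?_, fun x hx => ?_⟩
  have h1 : (Derivation.liftOfSurjective (f := (aeval a : M[X] →ₐ[M] F)) hsurj hker) a = 1 := by
    have h2 := Derivation.liftOfSurjective_apply (f := (aeval a : M[X] →ₐ[M] F)) hsurj hker X
    rw [aeval_X] at h2
    rw [h2]
    change aeval a (derivative (X : M[X])) = 1
    simp
  · exact h1
  · exact (Derivation.liftOfSurjective (f := (aeval a : M[X] →ₐ[M] F)) hsurj hker).map_algebraMap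
      (⟨x, hMS.1 hx⟩ : M)

/-- An element which is not a `p`-th power is not killed by all derivations. -/
theorem exists_der (p : ℕ) [Fact p.Prime] [CharP F p] {a : F}
    (ha : ∀ b : F, b ^ p ≠ a) : ∃ D : Derivation ℤ F F, D a ≠ 0 := by
  obtain ⟨D, hD, -⟩ := exists_der_rel p (K := (frobenius F p).fieldRange) (fun x => ⟨x, rfl⟩)
    (a := a) (by
      rintro ⟨b, hb⟩
      exact ha b hb)
  exact ⟨D, by rw [hD]; exact one_ne_zero⟩

end field

end Pool.Agent.TWB
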