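import Pool.Agent.Lib.TWB.GA1

/-!
# TANK B112: algebra over one field of characteristic `p`, part 2

`F` a field of characteristic `p`, `m ∈ F[X]` irreducible and monic.

* `extD`: a derivation `F → F[X]` extends to `F[X]` with `X ↦ 0`;
* `exists_der_lift`: derivations of `F[X]/(m)` are reductions of derivations of `F[X]`;
* `OrdD m n A`: the order of the differential form `dA` at `m` is `≥ n`;
* `ordD_iff`: `OrdD m n A` gives `A = B ^ p + m ^ n C`;
* `ordD_ex`: the order of `dA` is never congruent to `-1` mod `p`;
* `ordD_le`: the degree count (L4);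
* `dvd_coord`: the coordinates in a basis over `F[X] ^ Q` (L2).
-/

set_option autoImplicit false

open Polynomial

namespace Pool.Agent.TWB

universe u

section ext

variable {F : Type u} [Field F]

/-- The additive map under `extD`. -/
noncomputable def extDl (d : Derivation ℤ F F[X]) : F[X] →ₗ[ℤ] F[X] :=
  Polynomial.lsum (R := ℤ) fun i => (LinearMap.mulRight ℤ (X ^ i : F[X])) ∘ₗ d.toLinearMap

lemma extDl_monomial (d : Derivation ℤ F F[X]) (i : ℕ) (a : F) :
    extDl d (monomial i a) = d a * X ^ i := by
  rw [extDl, Polynomial.lsum_apply, Polynomial.sum_monomial_index]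
  · rfl
  · simp

/-- Extension of a derivation `F → F[X]` to `F[X]`, with `X ↦ 0`. -/
noncomputable def extD (d : Derivation ℤ F F[X]) : Derivation ℤ F[X] F[X] :=
  Derivation.mk' (extDl d) (by
    intro f g
    induction f using Polynomial.induction_on' with
    | add f₁ f₂ h₁ h₂ =>
      rw [add_mul, map_add, h₁, h₂, map_add]
      simp only [smul_eq_mul]
      ring
    | monomial i a =>
      induction g using Polynomial.induction_on' with
      | add g₁ g₂ h₁ h₂ =>
        rw [mul_add, map_add, h₁, h₂, map_add]
        simp only [smul_eq_mul]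
        ring
      | monomial j b =>
        rw [monomial_mul_monomial, extDl_monomial, extDl_monomial, extDl_monomial,
          Derivation.leibniz]
        simp only [smul_eq_mul, ← C_mul_X_pow_eq_monomial, Algebra.smul_def,
          Polynomial.algebraMap_eq]
        ring)

lemma extD_monomial (d : Derivation ℤ F F[X]) (i : ℕ) (a : F) :
    extD d (monomial i a) = d a * X ^ i := extDl_monomial d i a

lemma extD_C (d : Derivation ℤ F F[X]) (a : F) : extD d (C a) = d a := by
  have h := extD_monomial d 0 a
  rwa [pow_zero, mul_one, monomial_zero_left] at h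

lemma extD_X (d : Derivation ℤ F F[X]) : extD d X = 0 := by
  have h := extD_monomial d 1 1
  rwa [Derivation.map_one_eq_zero, zero_mul, monomial_one_one_eq_X] at h

/-- The derivation of `F[X]` with given values on `F` and at `X`. -/
noncomputable def derX (d : Derivation ℤ F F[X]) (g : F[X]) : Derivation ℤ F[X] F[X] :=
  extD d + g • (derivative' : Derivation F F[X] F[X]).restrictScalars ℤ

lemma derX_C (d : Derivation ℤ F F[X]) (g : F[X]) (a : F) : derX d g (C a) = d a := by
  have h : (derivative' : Derivation F F[X] F[X]) (C a) = 0 := by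
    change derivative (C a) = 0
    exact derivative_C
  change extD d (C a) + g • (derivative' : Derivation F F[X] F[X]) (C a) = d a
  rw [h, smul_zero, add_zero, extD_C]

lemma derX_X (d : Derivation ℤ F F[X]) (g : F[X]) : derX d g X = g := by
  have h : (derivative' : Derivation F F[X] F[X]) X = 1 := by
    change derivative X = 1
    exact derivative_X
  change extD d X + g • (derivative' : Derivation F F[X] F[X]) X = g
  rw [h, extD_X, zero_add, smul_eq_mul, mul_one]

/-- Coefficientwise derivation. -/
noncomputable def cfD (d : Derivation ℤ F F) : Derivation ℤ F[X] F[X] :=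
  extD ((Algebra.linearMap F F[X]).compDer d)

lemma cfD_coeff (d : Derivation ℤ F F) (f : F[X]) (i : ℕ) : (cfD d f).coeff i = d (f.coeff i) := by
  induction f using Polynomial.induction_on' with
  | add f₁ f₂ h₁ h₂ => rw [map_add, coeff_add, h₁, h₂, coeff_add, map_add]
  | monomial j a =>
    rw [cfD, extD_monomial]
    change (C (d a) * X ^ j).coeff i = _
    rw [coeff_C_mul_X_pow, coeff_monomial]
    by_cases h : j = i
    · rw [if_pos h, if_pos h.symm]
    · rw [if_neg h, if_neg (Ne.symm h), map_zero]

/-- Derivations of `F[X]/(m)` are reductions of derivations of `F[X]`. -/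
theorem exists_der_lift (m : F[X]) (δ : Derivation ℤ (AdjoinRoot m) (AdjoinRoot m)) :
    ∃ D : Derivation ℤ F[X] F[X], ∀ f, AdjoinRoot.mk m (D f) = δ (AdjoinRoot.mk m f) := by
  -- an `F`-linear section
  let π : F[X] →ₗ[F] AdjoinRoot m := (AdjoinRoot.mkₐ m : F[X] →ₐ[F] AdjoinRoot m).toLinearMap
  have hπ : ∀ f, π f = AdjoinRoot.mk m f := fun f => rfl
  obtain ⟨s, hs⟩ := LinearMap.exists_rightInverse_of_surjective π (by
    rw [LinearMap.range_eq_top]
    exact AdjoinRoot.mk_surjective)
  have hs' : ∀ x, AdjoinRoot.mk m (s x) = x := fun x => by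
    rw [← hπ]
    exact LinearMap.congr_fun hs x
  let d₀ : Derivation ℤ F (AdjoinRoot m) := δ.compAlgebraMap F
  have hd₀ : ∀ a, d₀ a = δ (AdjoinRoot.of m a) := fun a => rfl
  let d : Derivation ℤ F F[X] := s.compDer d₀
  have hd : ∀ a, AdjoinRoot.mk m (d a) = δ (AdjoinRoot.of m a) := fun a => by
    rw [← hd₀]
    exact hs' _
  refine ⟨derX d (s (δ (AdjoinRoot.mk m X))), fun f => ?_⟩
  set D := derX d (s (δ (AdjoinRoot.mk m X))) with hD
  have hmul : ∀ f g : F[X], AdjoinRoot.mk m (D f) = δ (AdjoinRoot.mk m f) →
      AdjoinRoot.mk m (D g) = δ (AdjoinRoot.mk m g) →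
      AdjoinRoot.mk m (D (f * g)) = δ (AdjoinRoot.mk m (f * g)) := by
    intro f g hf hg
    rw [Derivation.leibniz, map_add, smul_eq_mul, smul_eq_mul, map_mul, map_mul, hf, hg, map_mul,
      Derivation.leibniz, smul_eq_mul, smul_eq_mul]
  have hX : AdjoinRoot.mk m (D X) = δ (AdjoinRoot.mk m X) := by
    rw [hD, derX_X, hs']
  have hC : ∀ a, AdjoinRoot.mk m (D (C a)) = δ (AdjoinRoot.mk m (C a)) := by
    intro a
    rw [hD, derX_C, hd]
    rfl
  induction f using Polynomial.induction_on with
  | C a => exact hC a
  | add f₁ f₂ h₁ h₂ => rw [map_add, map_add, h₁, h₂, map_add, map_add]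
  | monomial n a h =>
    rw [pow_succ, ← mul_assoc]
    exact hmul _ _ h hX

end ext

end Pool.Agent.TWB
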