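import Pool.Agent.Lib.TWB.GA2

/-!
# TANK B112: algebra over one field of characteristic `p`, part 3

`F` a field of characteristic `p`, `m ∈ F[X]` irreducible and monic.

* `OrdD m n A`: the order of the differential form `dA` at `m` is `≥ n`;
* `OrdD.exists_eq`: `OrdD m n A` gives `A = B ^ p + m ^ n C`;
* `OrdD.ex`: the order of `dA` is never congruent to `-1` mod `p`;
* `OrdD.mul_le`, `OrdD.mul_le'`: the degree count (L4);
* `Ubas.dvd_coord`: the coordinates in a basis of `F[X]` over `F[X] ^ Q` (L2).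
-/

set_option autoImplicit false

open Polynomial

namespace Pool.Agent.TWB

universe u

section ordD

variable {F : Type u} [Field F]

/-- The order of `dA` at `m` is `≥ n`. -/
def OrdD (m : F[X]) (n : ℕ) (A : F[X]) : Prop := ∀ D : Derivation ℤ F[X] F[X], m ^ n ∣ D A

lemma OrdD.mono {m A : F[X]} {n n' : ℕ} (h : OrdD m n A) (hn : n' ≤ n) : OrdD m n' A := fun D =>
  (pow_dvd_pow m hn).trans (h D)

lemma ordD_zero (m A : F[X]) : OrdD m 0 A := fun D => by simp

lemma OrdD.add {m A B : F[X]} {n : ℕ} (h : OrdD m n A) (h' : OrdD m n B) : OrdD m n (A + B) :=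
  fun D => by
    rw [map_add]
    exact dvd_add (h D) (h' D)

lemma OrdD.neg {m A : F[X]} {n : ℕ} (h : OrdD m n A) : OrdD m n (-A) := fun D => by
  rw [map_neg]
  exact (h D).neg_right

lemma OrdD.sub {m A B : F[X]} {n : ℕ} (h : OrdD m n A) (h' : OrdD m n B) : OrdD m n (A - B) := by
  rw [sub_eq_add_neg]
  exact h.add h'.neg

lemma der_pow (p : ℕ) [Fact p.Prime] [CharP F p] (D : Derivation ℤ F[X] F[X]) (B : F[X]) :
    D (B ^ p) = 0 := by
  have h : ((p : ℕ) : F[X]) = 0 := CharP.cast_eq_zero _ p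
  rw [Derivation.leibniz_pow, nsmul_eq_mul, h, zero_mul]

lemma ordD_pow (p : ℕ) [Fact p.Prime] [CharP F p] (m B : F[X]) (n : ℕ) : OrdD m n (B ^ p) :=
  fun D => by
    rw [der_pow p]
    exact dvd_zero _

lemma OrdD.sub_pow (p : ℕ) [Fact p.Prime] [CharP F p] {m A : F[X]} {n : ℕ} (h : OrdD m n A)
    (B : F[X]) : OrdD m n (A - B ^ p) := h.sub (ordD_pow p m B n)

/-- `A = m ^ (n + 1) C` gives order `≥ n`. -/
lemma ordD_of_dvd {m A : F[X]} {n : ℕ} (h : m ^ (n + 1) ∣ A) : OrdD m n A := by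
  obtain ⟨C, rfl⟩ := h
  intro D
  rw [Derivation.leibniz, Derivation.leibniz_pow, nsmul_eq_mul, Nat.add_sub_cancel,
    smul_eq_mul, smul_eq_mul, smul_eq_mul]
  refine dvd_add ?_ ?_
  · rw [pow_succ, mul_assoc]
    exact dvd_mul_right _ _
  · refine Dvd.dvd.mul_left ?_ _
    refine Dvd.dvd.mul_left ?_ _
    exact dvd_mul_right _ _

/-- `A = m ^ (p n) C` gives order `≥ p n`. -/
lemma ordD_of_dvd' (p : ℕ) [Fact p.Prime] [CharP F p] {m A : F[X]} {n : ℕ}
    (h : m ^ (p * n) ∣ A) : OrdD m (p * n) A := by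
  obtain ⟨C, rfl⟩ := h
  intro D
  rw [Derivation.leibniz, mul_comm p n, pow_mul, der_pow p, smul_zero, add_zero, smul_eq_mul]
  exact dvd_mul_right _ _

/-- `dm` is unimodular at `m`. -/
theorem exists_der_not_dvd (p : ℕ) [hp : Fact p.Prime] [CharP F p] {m : F[X]} (hm : Irreducible m)
    (hmo : m.Monic) : ∃ D : Derivation ℤ F[X] F[X], ¬ m ∣ D m := by
  classical
  by_cases hs : derivative m = 0
  · -- some coefficient is not a `p`-th power
    have h1 : ∃ i, ∀ b : F, b ^ p ≠ m.coeff i := by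
      by_contra hcon
      push Not at hcon
      choose b hb using hcon
      have h2 : m = expand F p (contract p m) := (expand_contract p hs hp.out.ne_zero).symm
      -- `m` is the `p`-th power of a polynomial
      have h3 : ∃ g : F[X], g ^ p = m := by
        refine ⟨∑ i ∈ Finset.range ((contract p m).natDegree + 1), C (b (i * p)) * X ^ i, ?_⟩
        rw [sum_pow_char]
        conv_rhs => rw [h2, (contract p m).as_sum_range_C_mul_X_pow, map_sum]
        refine Finset.sum_congr rfl fun i _ => ?_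
        rw [mul_pow, ← C_pow, hb, map_mul, expand_C, map_pow, expand_X,
          coeff_contract hp.out.ne_zero, ← pow_mul, ← pow_mul, mul_comm i p]
      obtain ⟨g, hg⟩ := h3
      have h4 : ¬ IsUnit g := fun hu => hm.not_isUnit (hg ▸ hu.pow p)
      rw [← hg] at hm
      have h5 := hm.isUnit_or_isUnit (a := g) (b := g ^ (p - 1)) (by
        rw [← pow_succ', Nat.sub_add_cancel hp.out.one_le])
      rcases h5 with h5 | h5
      · exact h4 h5
      · exact h4 ((isUnit_pow_iff (Nat.sub_ne_zero_of_lt hp.out.one_lt)).1 h5)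
    obtain ⟨i, hi⟩ := h1
    obtain ⟨δ, hδ⟩ := exists_der p hi
    refine ⟨cfD δ, fun hdvd => ?_⟩
    have h2 : (cfD δ m) ≠ 0 := by
      intro h3
      have h4 := congrArg (fun f => coeff f i) h3
      simp only [cfD_coeff, coeff_zero] at h4
      exact hδ h4
    have h3 : (cfD δ m).degree < m.degree := by
      rw [degree_eq_natDegree hm.ne_zero, degree_lt_iff_coeff_zero]
      intro j hj
      rw [cfD_coeff]
      rcases hj.lt_or_eq with h4 | h4
      · rw [coeff_eq_zero_of_natDegree_lt h4, map_zero]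
      · rw [← h4, hmo.coeff_natDegree, Derivation.map_one_eq_zero]
    exact h2 (eq_zero_of_dvd_of_degree_lt hdvd h3)
  · refine ⟨(derivative' : Derivation F F[X] F[X]).restrictScalars ℤ, fun hdvd => ?_⟩
    exact hs (eq_zero_of_dvd_of_degree_lt hdvd (degree_derivative_lt hm.ne_zero))

/-- (L3) a form of order `≥ n` comes from `m ^ n C`, up to a `p`-th power. -/
theorem OrdD.exists_eq (p : ℕ) [hp : Fact p.Prime] [CharP F p] {m : F[X]} (hm : Irreducible m)
    (hmo : m.Monic) {n : ℕ} {A : F[X]} (h : OrdD m n A) :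
    ∃ B C : F[X], A = B ^ p + m ^ n * C := by
  induction n with
  | zero => exact ⟨0, A, by rw [zero_pow hp.out.ne_zero, pow_zero, one_mul, zero_add]⟩
  | succ n ih =>
    obtain ⟨B, C, hBC⟩ := ih (h.mono n.le_succ)
    have h1 : OrdD m (n + 1) (m ^ n * C) := by
      have h2 := h.sub_pow p B
      rwa [hBC, add_sub_cancel_left] at h2
    have hmn : m ^ n ≠ 0 := pow_ne_zero n hm.ne_zero
    have hprime : Prime m := hm.prime
    have hm0 : (p : F[X]) = 0 := CharP.cast_eq_zero _ p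
    by_cases hpn : p ∣ n
    · obtain ⟨n', rfl⟩ := hpn
      -- `dC = 0` mod `m`
      have h2 : ∀ D : Derivation ℤ F[X] F[X], m ∣ D C := by
        intro D
        have h3 := h1 D
        rw [Derivation.leibniz, mul_comm p n', pow_mul, der_pow p, smul_zero, add_zero,
          smul_eq_mul, pow_succ, ← pow_mul] at h3
        exact (mul_dvd_mul_iff_left (by rwa [mul_comm] at hmn)).1 h3
      have : Fact (Irreducible m) := ⟨hm⟩
      have : CharP (AdjoinRoot m) p := charP_of_injective_algebraMap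
        (algebraMap F (AdjoinRoot m)).injective p
      have h4 : ∃ b : AdjoinRoot m, b ^ p = AdjoinRoot.mk m C := by
        by_contra hcon
        push Not at hcon
        obtain ⟨δ, hδ⟩ := exists_der p hcon
        obtain ⟨D, hD⟩ := exists_der_lift m δ
        apply hδ
        refine (hD C).symm.trans ?_
        rw [AdjoinRoot.mk_eq_zero]
        exact h2 D
      obtain ⟨b, hb⟩ := h4
      obtain ⟨C₁, rfl⟩ := AdjoinRoot.mk_surjective b
      rw [← map_pow, eq_comm, AdjoinRoot.mk_eq_mk] at hb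
      obtain ⟨C₂, hC₂⟩ := hb
      refine ⟨B + m ^ n' * C₁, C₂, ?_⟩
      rw [add_pow_char, mul_pow, ← pow_mul, mul_comm n' p, hBC, pow_succ, mul_assoc, ← hC₂]
      ring
    · -- `C = 0` mod `m`
      obtain ⟨D, hD⟩ := exists_der_not_dvd p hm hmo
      obtain ⟨n₁, rfl⟩ : ∃ n₁, n = n₁ + 1 := Nat.exists_eq_succ_of_ne_zero (by
        rintro rfl
        exact hpn (dvd_zero p))
      have h3 := h1 D
      rw [Derivation.leibniz, Derivation.leibniz_pow, Nat.add_sub_cancel, nsmul_eq_mul,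
        smul_eq_mul, smul_eq_mul, smul_eq_mul] at h3
      have h4 : m ^ (n₁ + 1) ∣ C * (((n₁ + 1 : ℕ) : F[X]) * (m ^ n₁ * D m)) := by
        have h5 : m ^ (n₁ + 1) ∣ m ^ (n₁ + 1) * D C + C * (((n₁ + 1 : ℕ) : F[X]) * (m ^ n₁ * D m)) :=
          (pow_dvd_pow m (Nat.le_succ _)).trans h3
        exact (dvd_add_right (dvd_mul_right _ _)).1 h5
      have h5 : m ^ n₁ * m ∣ m ^ n₁ * (C * (((n₁ + 1 : ℕ) : F[X]) * D m)) := by
        rw [← pow_succ]
        refine h4.trans (dvd_of_eq ?_)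
        ring
      have h6 : m ∣ C * (((n₁ + 1 : ℕ) : F[X]) * D m) :=
        (mul_dvd_mul_iff_left (pow_ne_zero n₁ hm.ne_zero)).1 h5
      have h7 : ¬ m ∣ ((n₁ + 1 : ℕ) : F[X]) := by
        intro h8
        have h9 : ((n₁ + 1 : ℕ) : F[X]) = Polynomial.C ((n₁ + 1 : ℕ) : F) :=
          (map_natCast Polynomial.C (n₁ + 1)).symm
        have h10 : ((n₁ + 1 : ℕ) : F) ≠ 0 := by
          intro h11
          exact hpn ((CharP.cast_eq_zero_iff F p _).1 h11)
        rw [h9] at h8
        exact hm.not_isUnit (isUnit_of_dvd_unit h8 (isUnit_C.2 (isUnit_iff_ne_zero.2 h10)))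
      rcases hprime.dvd_or_dvd h6 with h8 | h8
      · obtain ⟨C', rfl⟩ := h8
        exact ⟨B, C', by rw [hBC, pow_succ m (n₁ + 1), mul_assoc]⟩
      · rcases hprime.dvd_or_dvd h8 with h9 | h9
        · exact absurd h9 h7
        · exact absurd h9 hD

/-- (L3), EX: the order of `dA` is never congruent to `-1` mod `p`. -/
theorem OrdD.exists_eq_mul (p : ℕ) [hp : Fact p.Prime] [CharP F p] {m : F[X]} (hm : Irreducible m)
    (hmo : m.Monic) {M : ℕ} (hM : M ≠ 0) {A : F[X]} (h : OrdD m (p * M - 1) A) :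
    ∃ B C : F[X], A = B ^ p + m ^ (p * M) * C := by
  obtain ⟨B, C, hBC⟩ := h.exists_eq p hm hmo
  obtain ⟨D, hD⟩ := exists_der_not_dvd p hm hmo
  obtain ⟨n, hn⟩ : ∃ n, p * M - 1 = n + 1 := by
    have h1 : 2 ≤ p := hp.out.two_le
    have h2 : 1 ≤ M := Nat.one_le_iff_ne_zero.2 hM
    have h3 : 2 ≤ p * M := by nlinarith
    exact ⟨p * M - 2, by omega⟩
  have hn' : p * M = n + 2 := by omega
  have h1 := (h.sub_pow p B) D
  rw [hBC, add_sub_cancel_left, hn, Derivation.leibniz, Derivation.leibniz_pow,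
    Nat.add_sub_cancel, nsmul_eq_mul, smul_eq_mul, smul_eq_mul, smul_eq_mul] at h1
  have h2 : m ^ (n + 1) ∣ C * (((n + 1 : ℕ) : F[X]) * (m ^ n * D m)) :=
    (dvd_add_right (dvd_mul_right _ _)).1 h1
  have h5 : m ^ n * m ∣ m ^ n * (C * (((n + 1 : ℕ) : F[X]) * D m)) := by
    rw [← pow_succ]
    refine h2.trans (dvd_of_eq ?_)
    ring
  have h6 : m ∣ C * (((n + 1 : ℕ) : F[X]) * D m) :=
    (mul_dvd_mul_iff_left (pow_ne_zero n hm.ne_zero)).1 h5
  have h7 : ¬ m ∣ ((n + 1 : ℕ) : F[X]) := by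
    intro h8
    have h9 : ((n + 1 : ℕ) : F[X]) = Polynomial.C ((n + 1 : ℕ) : F) :=
      (map_natCast Polynomial.C (n + 1)).symm
    have h10 : ((n + 1 : ℕ) : F) ≠ 0 := by
      intro h11
      have h12 := (CharP.cast_eq_zero_iff F p _).1 h11
      have h13 : p ∣ n + 2 := ⟨M, hn'.symm⟩
      have h14 : p ∣ 1 := by
        have h15 := Nat.dvd_sub h13 h12
        rwa [show n + 2 - (n + 1) = 1 by omega] at h15
      exact hp.out.one_lt.ne' (Nat.dvd_one.1 h14)
    rw [h9] at h8
    exact hm.not_isUnit (isUnit_of_dvd_unit h8 (isUnit_C.2 (isUnit_iff_ne_zero.2 h10)))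
  rcases hm.prime.dvd_or_dvd h6 with h8 | h8
  · obtain ⟨C', rfl⟩ := h8
    refine ⟨B, C', ?_⟩
    rw [hBC, hn, hn', pow_succ m (n + 1), mul_assoc]
  · rcases hm.prime.dvd_or_dvd h8 with h9 | h9
    · exact absurd h9 h7
    · exact absurd h9 hD

/-- (L3), EX, form for orders. -/
theorem OrdD.ex (p : ℕ) [hp : Fact p.Prime] [CharP F p] {m : F[X]} (hm : Irreducible m)
    (hmo : m.Monic) {M : ℕ} {A : F[X]} (h : OrdD m (p * M - 1) A) : OrdD m (p * M) A := by
  rcases Nat.eq_zero_or_pos M with rfl | hM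
  · rw [mul_zero]
    exact ordD_zero m A
  obtain ⟨B, C, rfl⟩ := h.exists_eq_mul p hm hmo hM.ne'
  exact (ordD_pow p m B _).add (ordD_of_dvd' p (dvd_mul_right _ _))

/-- (L4) the degree count, degree prime to `p`. -/
theorem OrdD.mul_lt (p : ℕ) [CharP F p] {m f : F[X]} {n : ℕ}
    (h : OrdD m n f) (hf : ¬ p ∣ f.natDegree) : n * m.natDegree < f.natDegree := by
  have h0 : f.natDegree ≠ 0 := fun h1 => hf (h1 ▸ dvd_zero p)
  have h1 : m ^ n ∣ derivative f := h ((derivative' : Derivation F F[X] F[X]).restrictScalars ℤ)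
  have h2 : (derivative f).coeff (f.natDegree - 1) ≠ 0 := by
    rw [coeff_derivative, Nat.sub_add_cancel (Nat.one_le_iff_ne_zero.2 h0)]
    have h3 : f.coeff f.natDegree ≠ 0 := by
      rw [coeff_natDegree, Ne, leadingCoeff_eq_zero]
      rintro rfl
      exact h0 natDegree_zero
    refine mul_ne_zero h3 ?_
    have h4 : ((f.natDegree - 1 : ℕ) : F) + 1 = ((f.natDegree : ℕ) : F) := by
      rw [← Nat.cast_succ, Nat.succ_eq_add_one,
        Nat.sub_add_cancel (Nat.one_le_iff_ne_zero.2 h0)]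
    rw [h4]
    intro h5
    exact hf ((CharP.cast_eq_zero_iff F p _).1 h5)
  have h3 : derivative f ≠ 0 := by
    intro h4
    rw [h4, coeff_zero] at h2
    exact h2 rfl
  have h4 := natDegree_le_of_dvd h1 h3
  rw [natDegree_pow] at h4
  have h5 := natDegree_derivative_lt h0
  omega

/-- (L4) the degree count, leading coefficient not a `p`-th power. -/
theorem OrdD.mul_le (p : ℕ) [hp : Fact p.Prime] [CharP F p] {m f : F[X]} {n : ℕ}
    (h : OrdD m n f) (hf : ∀ b : F, b ^ p ≠ f.leadingCoeff) :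
    n * m.natDegree ≤ f.natDegree := by
  obtain ⟨δ, hδ⟩ := exists_der p hf
  have h1 : m ^ n ∣ cfD δ f := h (cfD δ)
  have h3 : cfD δ f ≠ 0 := by
    intro h4
    have h5 := congrArg (fun g => coeff g f.natDegree) h4
    simp only [cfD_coeff, coeff_zero] at h5
    exact hδ h5
  have h4 := natDegree_le_of_dvd h1 h3
  rw [natDegree_pow] at h4
  refine h4.trans ?_
  rw [natDegree_le_iff_coeff_eq_zero]
  intro j hj
  rw [cfD_coeff, coeff_eq_zero_of_natDegree_lt hj, map_zero]

end ordD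

end Pool.Agent.TWB
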