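import Pool.Agent.Lib.TWB.GA3

/-!
# TANK B112: algebra over one field of characteristic `p`, part 4: Cartier operators

`F` a field of characteristic `p`, `Q = p ^ s`.

* `exists_crt`: additive `μ : F → F` with `μ (c ^ Q * a) = c * μ a`, zero on a given subgroup stable
  under the `Q`-th powers, nonzero at a given element outside of it;
* `crtX`: the operator `f ↦ ∑ μ (f_(Q j + i)) X ^ j` of `F[X]`;
* `jump_L`, `jump_P`: (L2) if `f + al h ^ Q + r ^ p` is divisible by `m ^ (Q N)` and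
  `deg f < Q * (N * deg m)`, then `f` is of the form `al h ^ Q + r ^ p`; the same with `X` (and with
  `c₀ + c₁ X`) instead of `al`.
-/

set_option autoImplicit false

open Polynomial

namespace Pool.Agent.TWB

universe u

section crt

variable {F : Type u} [Field F]

/-- `F` as a vector space over `F` via `c • a = c ^ (p ^ s) * a`. -/
def Frb (_p _s : ℕ) (F : Type u) : Type u := F

instance (p s : ℕ) : AddCommGroup (Frb p s F) := inferInstanceAs (AddCommGroup F)

noncomputable instance (p s : ℕ) [Fact p.Prime] [CharP F p] : Module F (Frb p s F) :=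
  Module.compHom F (iterateFrobenius F p s)

/-- The identity. -/
def toFrb (p s : ℕ) : F ≃+ Frb p s F := AddEquiv.refl F

lemma smul_toFrb (p s : ℕ) [Fact p.Prime] [CharP F p] (c a : F) :
    c • toFrb p s a = toFrb p s (c ^ (p ^ s) * a) := by
  change (iterateFrobenius F p s c) • a = c ^ (p ^ s) * a
  rw [iterateFrobenius_def, smul_eq_mul]

/-- Separating inverse semilinear functionals. -/
theorem exists_crt (p s : ℕ) [Fact p.Prime] [CharP F p] (W : AddSubgroup F)
    (hW : ∀ c : F, ∀ w ∈ W, c ^ (p ^ s) * w ∈ W) {a : F} (ha : a ∉ W) :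
    ∃ μ : F →+ F, (∀ c b : F, μ (c ^ (p ^ s) * b) = c * μ b) ∧ (∀ w ∈ W, μ w = 0) ∧ μ a ≠ 0 := by
  let W' : Submodule F (Frb p s F) :=
    { carrier := {x | (toFrb p s).symm x ∈ W}
      add_mem' := fun {x y} hx hy => by
        rw [Set.mem_ofPred_eq, map_add]
        exact W.add_mem hx hy
      zero_mem' := by
        rw [Set.mem_ofPred_eq, map_zero]
        exact W.zero_mem
      smul_mem' := fun c x hx => by
        obtain ⟨y, rfl⟩ := (toFrb p s).surjective x
        rw [Set.mem_ofPred_eq, AddEquiv.symm_apply_apply] at hx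
        rw [Set.mem_ofPred_eq, smul_toFrb, AddEquiv.symm_apply_apply]
        exact hW c y hx }
  have ha' : toFrb p s a ∉ W' := by
    intro h
    have h1 : (toFrb p s).symm (toFrb p s a) ∈ W := h
    rw [AddEquiv.symm_apply_apply] at h1
    exact ha h1
  obtain ⟨f, hf, hW'⟩ := Submodule.exists_le_ker_of_notMem ha'
  refine ⟨f.toAddMonoidHom.comp (toFrb p s : F ≃+ Frb p s F).toAddMonoidHom, fun c b => ?_, fun w hw => ?_, hf⟩
  · change f (toFrb p s (c ^ (p ^ s) * b)) = c * f (toFrb p s b)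
    rw [← smul_toFrb, map_smul, smul_eq_mul]
  · have h1 : toFrb p s w ∈ W' := by
      change (toFrb p s).symm (toFrb p s w) ∈ W
      rw [AddEquiv.symm_apply_apply]
      exact hw
    exact hW' h1

/-- The operator `f ↦ ∑ μ (f_(Q j + i)) X ^ j` of `F[X]`. -/
noncomputable def crtX (Q i : ℕ) (μ : F →+ F) (f : F[X]) : F[X] :=
  ∑ j ∈ Finset.range (f.natDegree + 1), monomial j (μ (f.coeff (Q * j + i)))

lemma crtX_coeff {Q i : ℕ} (hQ : 0 < Q) (μ : F →+ F) (f : F[X]) (j : ℕ) :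
    (crtX Q i μ f).coeff j = μ (f.coeff (Q * j + i)) := by
  rw [crtX, finsetSum_coeff]
  simp only [coeff_monomial]
  rw [Finset.sum_ite_eq' (Finset.range (f.natDegree + 1)) j]
  split_ifs with h
  · rfl
  · rw [Finset.mem_range, not_lt] at h
    have h1 : f.natDegree < Q * j + i := by
      have : j ≤ Q * j := Nat.le_mul_of_pos_left j hQ
      omega
    rw [coeff_eq_zero_of_natDegree_lt h1, map_zero]

lemma crtX_add {Q i : ℕ} (hQ : 0 < Q) (μ : F →+ F) (f g : F[X]) :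
    crtX Q i μ (f + g) = crtX Q i μ f + crtX Q i μ g := by
  ext j
  rw [coeff_add, crtX_coeff hQ, crtX_coeff hQ, crtX_coeff hQ, coeff_add, map_add]

/-- `E(u ^ Q f) = u E(f)`. -/
lemma crtX_pow_mul (p s : ℕ) [hp : Fact p.Prime] [CharP F p] {i : ℕ} (hi : i < p ^ s)
    (μ : F →+ F) (hμ : ∀ c b : F, μ (c ^ (p ^ s) * b) = c * μ b) (u f : F[X]) :
    crtX (p ^ s) i μ (u ^ (p ^ s) * f) = u * crtX (p ^ s) i μ f := by
  have hQ : 0 < p ^ s := pow_pos hp.out.pos s
  induction u using Polynomial.induction_on' with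
  | add u₁ u₂ h₁ h₂ =>
    rw [add_pow_char_pow, add_mul, crtX_add hQ, h₁, h₂, add_mul]
  | monomial n c =>
    ext j
    rw [crtX_coeff hQ, ← C_mul_X_pow_eq_monomial, mul_pow, ← C_pow, ← pow_mul, mul_assoc,
      coeff_C_mul, mul_assoc, coeff_C_mul, coeff_X_pow_mul', coeff_X_pow_mul']
    by_cases hn : n ≤ j
    · have h1 : n * p ^ s ≤ p ^ s * j + i := by nlinarith
      rw [if_pos hn, if_pos h1, hμ, crtX_coeff hQ]
      have h2 : p ^ s * j + i - n * p ^ s = p ^ s * (j - n) + i := by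
        obtain ⟨t, rfl⟩ := Nat.exists_eq_add_of_le hn
        rw [Nat.add_sub_cancel_left, mul_add, mul_comm n]
        omega
      rw [h2]
    · have h1 : ¬ n * p ^ s ≤ p ^ s * j + i := by
        intro h2
        have h3 : j + 1 ≤ n := by omega
        have h4 : (j + 1) * p ^ s ≤ n * p ^ s := Nat.mul_le_mul_right _ h3
        nlinarith
      rw [if_neg hn, if_neg h1, mul_zero, map_zero, mul_zero]

/-- (L2), general form. `W i` (`i < Q`) are subgroups of `F` stable under the `Q`-th powers. If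
`f + w` is divisible by `m ^ (Q N)`, the coefficients of `w` of index `Q j + i` are in `W i`, and
`deg f < Q (N deg m)`, then the coefficients of `f` of index `Q j + i` are in `W i`. -/
theorem coeff_mem_of_dvd (p s : ℕ) [hp : Fact p.Prime] [CharP F p] {m : F[X]} {N : ℕ}
    (W : ℕ → AddSubgroup F) (hW : ∀ i, ∀ c : F, ∀ w ∈ W i, c ^ (p ^ s) * w ∈ W i) {f w : F[X]}
    (hw : ∀ i < p ^ s, ∀ j, w.coeff (p ^ s * j + i) ∈ W i) (hd : m ^ (p ^ s * N) ∣ f + w)
    (hf : f.natDegree < p ^ s * (N * m.natDegree)) :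
    ∀ i < p ^ s, ∀ j, f.coeff (p ^ s * j + i) ∈ W i := by
  intro i hi j
  have hQ : 0 < p ^ s := pow_pos hp.out.pos s
  by_contra hcon
  obtain ⟨μ, hμ, hμW, hμa⟩ := exists_crt p s (W i) (hW i) hcon
  obtain ⟨g, hg⟩ := hd
  have h1 : m ^ N ∣ crtX (p ^ s) i μ f := by
    have h2 : crtX (p ^ s) i μ w = 0 := by
      ext l
      rw [crtX_coeff hQ, coeff_zero]
      exact hμW _ (hw i hi l)
    have h3 : crtX (p ^ s) i μ (f + w) = m ^ N * crtX (p ^ s) i μ g := by
      rw [hg, mul_comm (p ^ s) N, pow_mul, crtX_pow_mul p s hi μ hμ]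
    rw [crtX_add hQ, h2, add_zero] at h3
    exact ⟨_, h3⟩
  have h2 : crtX (p ^ s) i μ f ≠ 0 := by
    intro h3
    have h4 := congrArg (fun g => coeff g j) h3
    simp only [crtX_coeff hQ, coeff_zero] at h4
    exact hμa h4
  have h3 := natDegree_le_of_dvd h1 h2
  rw [natDegree_pow] at h3
  have h4 : (crtX (p ^ s) i μ f).coeff (crtX (p ^ s) i μ f).natDegree ≠ 0 := by
    rw [coeff_natDegree]
    exact leadingCoeff_ne_zero.2 h2
  rw [crtX_coeff hQ] at h4
  have h5 : p ^ s * (crtX (p ^ s) i μ f).natDegree + i ≤ f.natDegree := by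
    by_contra h6
    rw [not_le] at h6
    rw [coeff_eq_zero_of_natDegree_lt h6, map_zero] at h4
    exact h4 rfl
  have h6 : p ^ s * (N * m.natDegree) ≤ p ^ s * (crtX (p ^ s) i μ f).natDegree :=
    Nat.mul_le_mul_left _ h3
  omega

lemma coeff_pow_char_pow (p s : ℕ) [hp : Fact p.Prime] [CharP F p] (f : F[X]) (n : ℕ) :
    (f ^ (p ^ s)).coeff n = if p ^ s ∣ n then f.coeff (n / p ^ s) ^ (p ^ s) else 0 := by
  have hQ : 0 < p ^ s := pow_pos hp.out.pos s
  rw [← map_iterateFrobenius_expand p f s, coeff_map, coeff_expand hQ]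
  split_ifs with h
  · rw [iterateFrobenius_def]
  · rw [map_zero]

lemma coeff_pow_char (p : ℕ) [hp : Fact p.Prime] [CharP F p] (f : F[X]) (n : ℕ) :
    (f ^ p).coeff n = if p ∣ n then f.coeff (n / p) ^ p else 0 := by
  have h := coeff_pow_char_pow p 1 f n
  rwa [pow_one] at h

/-- A polynomial with given coefficients. -/
lemma exists_poly (β : ℕ → F) (n : ℕ) (hβ : ∀ l, n < l → β l = 0) :
    ∃ g : F[X], ∀ l, g.coeff l = β l := by
  refine ⟨∑ l ∈ Finset.range (n + 1), monomial l (β l), fun l => ?_⟩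
  rw [finsetSum_coeff]
  simp only [coeff_monomial]
  rw [Finset.sum_ite_eq' (Finset.range (n + 1)) l]
  split_ifs with h
  · rfl
  · rw [Finset.mem_range, not_lt] at h
    exact (hβ l (by omega)).symm

/-- The subgroup of the `p`-th powers. -/
def powG (p : ℕ) [Fact p.Prime] [CharP F p] : AddSubgroup F := (frobenius F p).toAddMonoidHom.range

lemma mem_powG {p : ℕ} [Fact p.Prime] [CharP F p] {x : F} :
    x ∈ (powG p : AddSubgroup F) ↔ ∃ b : F, b ^ p = x := Iff.rfl

/-- The subgroup `al F ^ Q`. -/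
def lineG (p s : ℕ) [Fact p.Prime] [CharP F p] (al : F) : AddSubgroup F :=
  ((AddMonoidHom.mulLeft al).comp (iterateFrobenius F p s).toAddMonoidHom).range

lemma mem_lineG {p s : ℕ} [Fact p.Prime] [CharP F p] {al x : F} :
    x ∈ (lineG p s al : AddSubgroup F) ↔ ∃ b : F, al * b ^ (p ^ s) = x := by
  constructor
  · rintro ⟨b, hb⟩
    refine ⟨b, hb ▸ ?_⟩
    change al * b ^ (p ^ s) = al * iterateFrobenius F p s b
    rw [iterateFrobenius_def]
  · rintro ⟨b, hb⟩
    refine ⟨b, hb ▸ ?_⟩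
    change al * iterateFrobenius F p s b = al * b ^ (p ^ s)
    rw [iterateFrobenius_def]

lemma pow_mul_mem_powG {p s : ℕ} [Fact p.Prime] [CharP F p] (hs : s ≠ 0) (c : F) {x : F}
    (hx : x ∈ (powG p : AddSubgroup F)) : c ^ (p ^ s) * x ∈ (powG p : AddSubgroup F) := by
  obtain ⟨b, rfl⟩ := mem_powG.1 hx
  obtain ⟨t, rfl⟩ := Nat.exists_eq_succ_of_ne_zero hs
  exact mem_powG.2 ⟨c ^ (p ^ t) * b, by rw [mul_pow, ← pow_mul, ← pow_succ]⟩

lemma pow_mul_mem_lineG {p s : ℕ} [Fact p.Prime] [CharP F p] {al : F} (c : F) {x : F}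
    (hx : x ∈ (lineG p s al : AddSubgroup F)) :
    c ^ (p ^ s) * x ∈ (lineG p s al : AddSubgroup F) := by
  obtain ⟨b, rfl⟩ := mem_lineG.1 hx
  exact mem_lineG.2 ⟨c * b, by rw [mul_pow]; ring⟩

/-- (L2), type L. -/
theorem jump_L (p s : ℕ) [hp : Fact p.Prime] [CharP F p] (hs : s ≠ 0) {m : F[X]} {N : ℕ} (al : F)
    {f h r : F[X]} (hd : m ^ (p ^ s * N) ∣ f + (C al * h ^ (p ^ s) + r ^ p))
    (hf : f.natDegree < p ^ s * (N * m.natDegree)) :
    ∃ h' r' : F[X], f = C al * h' ^ (p ^ s) + r' ^ p := by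
  classical
  have hQ : 0 < p ^ s := pow_pos hp.out.pos s
  have hpQ : p ∣ p ^ s := dvd_pow_self p hs
  let W : ℕ → AddSubgroup F := fun i =>
    if p ∣ i then (if p ^ s ∣ i then powG p ⊔ lineG p s al else powG p) else ⊥
  have hW : ∀ i, ∀ c : F, ∀ w ∈ W i, c ^ (p ^ s) * w ∈ W i := by
    intro i c w hw
    simp only [W] at hw ⊢
    split_ifs at hw ⊢
    · obtain ⟨a, ha, b, hb, rfl⟩ := AddSubgroup.mem_sup.1 hw
      rw [mul_add]
      exact add_mem (AddSubgroup.mem_sup_left (pow_mul_mem_powG hs c ha))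
        (AddSubgroup.mem_sup_right (pow_mul_mem_lineG c hb))
    · exact pow_mul_mem_powG hs c hw
    · rw [AddSubgroup.mem_bot] at hw ⊢
      rw [hw, mul_zero]
  have hdvd : ∀ i j, p ^ s ∣ p ^ s * j + i ↔ p ^ s ∣ i := fun i j =>
    (Nat.dvd_add_right (dvd_mul_right _ _))
  have hdvd' : ∀ i j, p ∣ p ^ s * j + i ↔ p ∣ i := fun i j =>
    (Nat.dvd_add_right (hpQ.trans (dvd_mul_right _ _)))
  have hw : ∀ i < p ^ s, ∀ j, (C al * h ^ (p ^ s) + r ^ p).coeff (p ^ s * j + i) ∈ W i := by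
    intro i _ j
    rw [coeff_add, coeff_C_mul, coeff_pow_char_pow, coeff_pow_char]
    simp only [W, hdvd, hdvd']
    by_cases h1 : p ∣ i
    · rw [if_pos h1, if_pos h1]
      by_cases h2 : p ^ s ∣ i
      · rw [if_pos h2, if_pos h2]
        exact add_mem (AddSubgroup.mem_sup_right (mem_lineG.2 ⟨_, rfl⟩))
          (AddSubgroup.mem_sup_left (mem_powG.2 ⟨_, rfl⟩))
      · rw [if_neg h2, if_neg h2, mul_zero, zero_add]
        exact mem_powG.2 ⟨_, rfl⟩
    · have h2 : ¬ p ^ s ∣ i := fun h3 => h1 (hpQ.trans h3)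
      rw [if_neg h1, if_neg h1, if_neg h2, mul_zero, zero_add]
      exact zero_mem _
  have hmem := coeff_mem_of_dvd p s W hW hw hd hf
  have hmem' : ∀ n, f.coeff n ∈ W n := by
    intro n
    have h1 := hmem (n % p ^ s) (Nat.mod_lt _ hQ) (n / p ^ s)
    rw [Nat.div_add_mod] at h1
    have h2 : W (n % p ^ s) = W n := by
      have h3 := hdvd (n % p ^ s) (n / p ^ s)
      have h4 := hdvd' (n % p ^ s) (n / p ^ s)
      rw [Nat.div_add_mod] at h3 h4
      simp only [W, ← h3, ← h4]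
    rwa [h2] at h1
  -- the choice
  have hch : ∀ l, ∃ b c : F, f.coeff (p * l) = b ^ p + (if p ^ s ∣ p * l then al * c ^ (p ^ s) else 0)
      ∧ (f.coeff (p * l) = 0 → b = 0 ∧ c = 0) := by
    intro l
    by_cases h0 : f.coeff (p * l) = 0
    · refine ⟨0, 0, ?_, fun _ => ⟨rfl, rfl⟩⟩
      rw [h0, zero_pow hp.out.ne_zero, zero_pow hQ.ne']
      simp
    · have h1 := hmem' (p * l)
      simp only [W] at h1
      rw [if_pos (dvd_mul_right p l)] at h1
      by_cases h2 : p ^ s ∣ p * l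
      · rw [if_pos h2] at h1
        obtain ⟨a, ha, b, hb, hab⟩ := AddSubgroup.mem_sup.1 h1
        obtain ⟨a', rfl⟩ := mem_powG.1 ha
        obtain ⟨b', rfl⟩ := mem_lineG.1 hb
        exact ⟨a', b', by rw [if_pos h2, hab], fun h3 => absurd h3 h0⟩
      · rw [if_neg h2] at h1
        obtain ⟨a', ha'⟩ := mem_powG.1 h1
        exact ⟨a', 0, by rw [if_neg h2, ha', add_zero], fun h3 => absurd h3 h0⟩
  choose β γ hβγ hz using hch
  have hbig : ∀ l, f.natDegree < l → f.coeff (p * l) = 0 := fun l hl =>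
    coeff_eq_zero_of_natDegree_lt (hl.trans_le (Nat.le_mul_of_pos_left l hp.out.pos))
  obtain ⟨r', hr'⟩ := exists_poly β f.natDegree fun l hl => (hz l (hbig l hl)).1
  obtain ⟨t, rfl⟩ := Nat.exists_eq_succ_of_ne_zero hs
  have hQt : ∀ j, p * (p ^ t * j) = p ^ (t + 1) * j := fun j => by rw [pow_succ']; ring
  obtain ⟨h', hh'⟩ := exists_poly (fun j => γ (p ^ t * j)) f.natDegree fun j hj =>
    (hz _ (hbig _ (hj.trans_le (Nat.le_mul_of_pos_left j (pow_pos hp.out.pos t))))).2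
  refine ⟨h', r', ?_⟩
  ext n
  rw [coeff_add, coeff_C_mul, coeff_pow_char_pow, coeff_pow_char]
  by_cases h1 : p ∣ n
  · obtain ⟨l, rfl⟩ := h1
    rw [if_pos (dvd_mul_right p l), Nat.mul_div_cancel_left l hp.out.pos, hr', hβγ l, add_comm]
    by_cases h2 : p ^ (t + 1) ∣ p * l
    · rw [if_pos h2, if_pos h2]
      obtain ⟨j, hj⟩ := h2
      rw [hj, Nat.mul_div_cancel_left j hQ, hh']
      have h3 : l = p ^ t * j := by
        rw [← hQt] at hj
        exact Nat.eq_of_mul_eq_mul_left hp.out.pos hj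
      rw [h3]
    · rw [if_neg h2, if_neg h2, mul_zero]
  · have h2 : ¬ p ^ (t + 1) ∣ n := fun h3 => h1 (hpQ.trans h3)
    have h3 := hmem' n
    simp only [W] at h3
    rw [if_neg h1, AddSubgroup.mem_bot] at h3
    rw [if_neg h1, if_neg h2, h3, mul_zero, add_zero]

lemma coeff_X_mul_pow (p s : ℕ) [hp : Fact p.Prime] [CharP F p] (hs : s ≠ 0) (h : F[X]) (n : ℕ) :
    (X * h ^ (p ^ s)).coeff n =
      if p ∣ n then 0 else if p ^ s ∣ n - 1 then h.coeff ((n - 1) / p ^ s) ^ (p ^ s) else 0 := by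
  have hpQ : p ∣ p ^ s := dvd_pow_self p hs
  rcases n with _ | n
  · rw [coeff_X_mul_zero, if_pos (dvd_zero p)]
  · rw [coeff_X_mul, coeff_pow_char_pow, Nat.add_sub_cancel]
    by_cases h1 : p ∣ n + 1
    · have h2 : ¬ p ^ s ∣ n := by
        intro h3
        have h4 : p ∣ 1 := (Nat.dvd_add_right (hpQ.trans h3)).1 h1
        exact hp.out.one_lt.ne' (Nat.dvd_one.1 h4)
      rw [if_pos h1, if_neg h2]
    · rw [if_neg h1]

/-- (L2), type P, with `X`. -/
theorem jump_X (p s : ℕ) [hp : Fact p.Prime] [CharP F p] (hs : s ≠ 0) {m : F[X]} {N : ℕ}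
    {f h r : F[X]} (hd : m ^ (p ^ s * N) ∣ f + (X * h ^ (p ^ s) + r ^ p))
    (hf : f.natDegree < p ^ s * (N * m.natDegree)) :
    ∃ h' r' : F[X], f = X * h' ^ (p ^ s) + r' ^ p := by
  classical
  have hQ : 0 < p ^ s := pow_pos hp.out.pos s
  have hpQ : p ∣ p ^ s := dvd_pow_self p hs
  let W : ℕ → AddSubgroup F := fun i =>
    if p ∣ i then powG p else (if p ^ s ∣ i - 1 then lineG p s 1 else ⊥)
  have hW : ∀ i, ∀ c : F, ∀ w ∈ W i, c ^ (p ^ s) * w ∈ W i := by
    intro i c w hw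
    simp only [W] at hw ⊢
    split_ifs at hw ⊢
    · exact pow_mul_mem_powG hs c hw
    · exact pow_mul_mem_lineG c hw
    · rw [AddSubgroup.mem_bot] at hw ⊢
      rw [hw, mul_zero]
  have hdvd' : ∀ i j, p ∣ p ^ s * j + i ↔ p ∣ i := fun i j =>
    (Nat.dvd_add_right (hpQ.trans (dvd_mul_right _ _)))
  have hdvd : ∀ i j, ¬ p ∣ i → (p ^ s ∣ p ^ s * j + i - 1 ↔ p ^ s ∣ i - 1) := fun i j hi => by
    have h1 : 1 ≤ i := Nat.one_le_iff_ne_zero.2 (fun h => hi (h ▸ dvd_zero p))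
    rw [Nat.add_sub_assoc h1]
    exact (Nat.dvd_add_right (dvd_mul_right _ _))
  have hWW : ∀ i j, W (p ^ s * j + i) = W i := by
    intro i j
    by_cases h1 : p ∣ i
    · simp only [W, hdvd', if_pos h1]
    · simp only [W, hdvd', hdvd i j h1, if_neg h1]
  have hmemW : ∀ n, (X * h ^ (p ^ s) + r ^ p).coeff n ∈ W n := by
    intro n
    rw [coeff_add, coeff_X_mul_pow p s hs, coeff_pow_char]
    simp only [W]
    by_cases h1 : p ∣ n
    · rw [if_pos h1, if_pos h1, if_pos h1, zero_add]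
      exact mem_powG.2 ⟨_, rfl⟩
    · rw [if_neg h1, if_neg h1, if_neg h1, add_zero]
      by_cases h2 : p ^ s ∣ n - 1
      · rw [if_pos h2, if_pos h2]
        exact mem_lineG.2 ⟨_, one_mul _⟩
      · rw [if_neg h2, if_neg h2]
        exact zero_mem _
  have hw : ∀ i < p ^ s, ∀ j, (X * h ^ (p ^ s) + r ^ p).coeff (p ^ s * j + i) ∈ W i := by
    intro i _ j
    rw [← hWW i j]
    exact hmemW _
  have hmem := coeff_mem_of_dvd p s W hW hw hd hf
  have hmem' : ∀ n, f.coeff n ∈ W n := by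
    intro n
    have h1 := hmem (n % p ^ s) (Nat.mod_lt _ hQ) (n / p ^ s)
    rw [← hWW (n % p ^ s) (n / p ^ s), Nat.div_add_mod] at h1
    exact h1
  -- the choice
  have hch : ∀ l, ∃ b : F, f.coeff (p * l) = b ^ p ∧ (f.coeff (p * l) = 0 → b = 0) := by
    intro l
    have h1 := hmem' (p * l)
    simp only [W] at h1
    rw [if_pos (dvd_mul_right p l)] at h1
    obtain ⟨b, hb⟩ := mem_powG.1 h1
    refine ⟨b, hb.symm, fun h2 => ?_⟩
    rw [h2] at hb
    exact eq_zero_of_pow_eq_zero hb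
  choose β hβ hz using hch
  have hch' : ∀ j, ∃ c : F, f.coeff (p ^ s * j + 1) = c ^ (p ^ s) ∧
      (f.coeff (p ^ s * j + 1) = 0 → c = 0) := by
    intro j
    have h1 := hmem' (p ^ s * j + 1)
    have h2 : ¬ p ∣ p ^ s * j + 1 := by
      rw [hdvd']
      intro h3
      exact hp.out.one_lt.ne' (Nat.dvd_one.1 h3)
    simp only [W] at h1
    rw [if_neg h2, Nat.add_sub_cancel, if_pos (dvd_mul_right _ _)] at h1
    obtain ⟨b, hb⟩ := mem_lineG.1 h1
    rw [one_mul] at hb
    refine ⟨b, hb.symm, fun h2 => ?_⟩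
    rw [h2] at hb
    exact eq_zero_of_pow_eq_zero hb
  choose γ hγ hz' using hch'
  obtain ⟨r', hr'⟩ := exists_poly β f.natDegree fun l hl => hz l
    (coeff_eq_zero_of_natDegree_lt (hl.trans_le (Nat.le_mul_of_pos_left l hp.out.pos)))
  obtain ⟨h', hh'⟩ := exists_poly γ f.natDegree fun j hj => hz' j
    (coeff_eq_zero_of_natDegree_lt
      ((hj.trans_le (Nat.le_mul_of_pos_left j hQ)).trans (Nat.lt_succ_self _)))
  refine ⟨h', r', ?_⟩
  ext n
  rw [coeff_add, coeff_X_mul_pow p s hs, coeff_pow_char]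
  by_cases h1 : p ∣ n
  · obtain ⟨l, rfl⟩ := h1
    rw [if_pos (dvd_mul_right p l), if_pos (dvd_mul_right p l),
      Nat.mul_div_cancel_left l hp.out.pos, hr', hβ l, zero_add]
  · rw [if_neg h1, if_neg h1, add_zero]
    have h3 := hmem' n
    simp only [W] at h3
    rw [if_neg h1] at h3
    by_cases h2 : p ^ s ∣ n - 1
    · rw [if_pos h2]
      obtain ⟨j, hj⟩ := h2
      have hn : n = p ^ s * j + 1 := by
        have h4 : n ≠ 0 := fun h => h1 (h ▸ dvd_zero p)
        omega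
      rw [hj, Nat.mul_div_cancel_left j hQ, hh', hn, hγ]
    · rw [if_neg h2, AddSubgroup.mem_bot] at h3
      rw [if_neg h2, h3]

/-- (L2), type P. -/
theorem jump_P (p s : ℕ) [hp : Fact p.Prime] [CharP F p] (hs : s ≠ 0) {m : F[X]} {N : ℕ}
    {c₀ c₁ : F} (hc : c₁ ≠ 0) {f h r : F[X]}
    (hd : m ^ (p ^ s * N) ∣ f + ((C c₀ + C c₁ * X) * h ^ (p ^ s) + r ^ p))
    (hf : f.natDegree < p ^ s * (N * m.natDegree)) :
    ∃ h' r' : F[X], f = (C c₀ + C c₁ * X) * h' ^ (p ^ s) + r' ^ p := by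
  set φ : F[X] := C (c₁⁻¹) * X - C (c₁⁻¹ * c₀) with hφ
  set ψ : F[X] := C c₀ + C c₁ * X with hψ
  have hψφ : ψ.comp φ = X := by
    rw [hψ, hφ]
    simp only [add_comp, mul_comp, C_comp, X_comp]
    rw [mul_sub, ← mul_assoc, ← C_mul, mul_inv_cancel₀ hc, C_1, one_mul, ← C_mul, ← mul_assoc,
      mul_inv_cancel₀ hc, one_mul]
    ring
  have hφψ : φ.comp ψ = X := by
    rw [hψ, hφ]
    simp only [sub_comp, mul_comp, C_comp, X_comp]
    rw [mul_add, ← mul_assoc, ← C_mul, ← C_mul, inv_mul_cancel₀ hc, C_1, one_mul]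
    ring
  have hdφ : φ.natDegree = 1 := by
    rw [hφ, natDegree_sub_C]
    exact natDegree_C_mul_X _ (inv_ne_zero hc)
  obtain ⟨h', r', hh⟩ := jump_X p s hs (m := m.comp φ) (N := N) (f := f.comp φ)
    (h := h.comp φ) (r := r.comp φ) (by
      obtain ⟨g, hg⟩ := hd
      refine ⟨g.comp φ, ?_⟩
      have h1 := congrArg (fun t => t.comp φ) hg
      simp only [add_comp, mul_comp, pow_comp] at h1
      rw [hψφ] at h1
      exact h1) (by rwa [natDegree_comp, natDegree_comp, hdφ, mul_one, mul_one])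
  refine ⟨h'.comp ψ, r'.comp ψ, ?_⟩
  have h1 := congrArg (fun t => t.comp ψ) hh
  simp only [add_comp, mul_comp, pow_comp, X_comp, comp_assoc, hφψ, comp_X] at h1
  exact h1

end crt

end Pool.Agent.TWB
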