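import Mathlib

/-!
# TANK B112, algebra: coefficientwise derivations, orders of forms after a jump of `T` (L5)

* `coD D`: the derivation of `A[X]` which acts on the coefficients as `D`, and kills `X`;
* `map_mem_pow`: a derivation maps `I ^ (n + 1)` into `I ^ n`;
* `order_le`: if `coD D P ∈ I ^ n`, `g` divides the residues of the elements of `I`, and
  `D (P.coeff q)` is a unit, `q ≥ P.natDegree`, then `n * deg g ≤ q`;
* `X_pow_mul_not_mem`: `coD D (X ^ q * C a)` is not in a prime without `X` and `D a`.
-/

set_option autoImplicit false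

open Polynomial

namespace Pool.Agent.TWB

universe u v w

section coD

variable {R : Type u} {A : Type v} [CommRing R] [CommRing A] [Algebra R A]

/-- The derivation of `A[X]` which acts on the coefficients, and kills `X`. -/
noncomputable def coD (D : Derivation R A A) : Derivation R A[X] A[X] :=
  LinearMap.compDer (PolynomialModule.equivPolynomialSelf (R := A)).toLinearMap D.mapCoeffs

theorem coD_coeff (D : Derivation R A A) (P : A[X]) (i : ℕ) : (coD D P).coeff i = D (P.coeff i) :=
  rfl

@[simp]
theorem coD_C (D : Derivation R A A) (a : A) : coD D (C a) = C (D a) := by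
  ext i
  rw [coD_coeff, coeff_C, coeff_C]
  split_ifs <;> simp

@[simp]
theorem coD_X (D : Derivation R A A) : coD D (X : A[X]) = 0 := by
  ext i
  rw [coD_coeff, coeff_X, coeff_zero]
  split_ifs <;> simp

theorem coD_natDegree_le (D : Derivation R A A) (P : A[X]) :
    (coD D P).natDegree ≤ P.natDegree := by
  rw [natDegree_le_iff_coeff_eq_zero]
  intro i hi
  rw [coD_coeff, coeff_eq_zero_of_natDegree_lt hi, map_zero]

/-- A derivation kills the `p`-th powers. -/
theorem der_pow_char (p : ℕ) [Fact p.Prime] [CharP A p] (D : Derivation R A A) (a : A) :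
    D (a ^ p) = 0 := by
  rw [Derivation.leibniz_pow, ← Nat.cast_smul_eq_nsmul A p, CharP.cast_eq_zero, zero_smul]

/-- A derivation maps `I ^ (n + 1)` into `I ^ n`. -/
theorem map_mem_pow (D : Derivation R A A) (I : Ideal A) (n : ℕ) {a : A} (ha : a ∈ I ^ (n + 1)) :
    D a ∈ I ^ n := by
  induction n generalizing a with
  | zero => simp
  | succ n ih =>
    rw [pow_succ] at ha
    refine Submodule.mul_induction_on ha (fun x hx y hy => ?_) (fun x y hx hy => ?_)
    · rw [Derivation.leibniz, smul_eq_mul, smul_eq_mul]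
      refine Ideal.add_mem _ (Ideal.mul_mem_right _ _ hx) ?_
      rw [mul_comm, pow_succ]
      exact Ideal.mul_mem_mul (ih hx) hy
    · rw [map_add]
      exact Ideal.add_mem _ hx hy

end coD

/-- If `g` divides the residues of the elements of `I`, `g ^ n` divides the residues of the elements
of `I ^ n`. -/
theorem pow_dvd_map {A : Type v} {B : Type w} [CommRing A] [CommRing B] (φ : A →+* B) (I : Ideal A)
    (g : B) (hI : ∀ a ∈ I, g ∣ φ a) (n : ℕ) {a : A} (ha : a ∈ I ^ n) : g ^ n ∣ φ a := by
  have h1 : I ≤ (Ideal.span {g}).comap φ := fun a ha => by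
    rw [Ideal.mem_comap, Ideal.mem_span_singleton]
    exact hI a ha
  have h2 : I ^ n ≤ ((Ideal.span {g}) ^ n).comap φ :=
    (Ideal.pow_right_mono h1 n).trans (Ideal.le_comap_pow φ n)
  have h3 := h2 ha
  rwa [Ideal.mem_comap, Ideal.span_singleton_pow, Ideal.mem_span_singleton] at h3

variable {R : Type u} {A : Type v} [CommRing R] [CommRing A] [Algebra R A]

/-- **L5.** The order of a form at a prime over a unimodular top coefficient. -/
theorem order_le {F : Type w} [Field F] (φ : A →+* F) (D : Derivation R A A) {P : A[X]} {q : ℕ}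
    (hq : P.natDegree ≤ q) (hD : φ (D (P.coeff q)) ≠ 0) (I : Ideal A[X]) (g : F[X])
    (hI : ∀ a ∈ I, g ∣ a.map φ) {n : ℕ} (h : coD D P ∈ I ^ n) : n * g.natDegree ≤ q := by
  have h1 : g ^ n ∣ (coD D P).map φ := pow_dvd_map (mapRingHom φ) I g hI n h
  have h2 : (coD D P).map φ ≠ 0 := fun h0 => hD (by
    rw [← coD_coeff, ← coeff_map, h0, coeff_zero])
  calc n * g.natDegree = (g ^ n).natDegree := (natDegree_pow g n).symm
    _ ≤ ((coD D P).map φ).natDegree := natDegree_le_of_dvd h1 h2
    _ ≤ (coD D P).natDegree := natDegree_map_le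
    _ ≤ P.natDegree := coD_natDegree_le D P
    _ ≤ q := hq

/-- **L5**, the form of one term: it remains unimodular at a prime without `X`. -/
theorem X_pow_mul_not_mem (D : Derivation R A A) (I : Ideal A[X]) (hI : I.IsPrime)
    (hX : (X : A[X]) ∉ I) {a : A} (ha : C (D a) ∉ I) (q : ℕ) : coD D (X ^ q * C a) ∉ I := by
  rw [Derivation.leibniz, coD_C, Derivation.leibniz_pow, coD_X, smul_zero, smul_zero, smul_zero,
    add_zero, smul_eq_mul]
  exact fun h => (hI.mem_or_mem h).elim (fun h => hX (hI.mem_of_pow_mem q h)) ha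

end Pool.Agent.TWB
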