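import Pool.Agent.Lib.TWB.L5

/-!
# TANK B112, algebra: the order at the kernel of `F[Y, T] → F'` (L6)

`F'` a field over `F`, `y₀, T₀ ∈ F'` algebraic over `F`, `𝔮` the kernel of
`F[Y][T] → F'`, `Y ↦ y₀`, `T ↦ T₀` (inner variable `Y`, outer variable `T`).

* `pow_dvd_of_mem`: if `f ∈ F[T]` is in `𝔮 ^ n`, then `(minpoly F T₀) ^ n ∣ f`;
* `order_two`: if `E₀(T) + E₁(T) Y - G ^ p ∈ 𝔮 ^ (n + 1)`, `deg E₀, E₁ ≤ q`, and `E₁ ≠ 0` or
  `D (E₀.coeff q) ≠ 0` for a derivation `D` of `F`, then `n * deg (minpoly F T₀) ≤ q`.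
-/

set_option autoImplicit false

open Polynomial

namespace Pool.Agent.TWB

universe u v

variable {F : Type u} {F' : Type v} [Field F] [Field F'] [Algebra F F']

/-- The value of a polynomial in two variables: inner variable `y₀`, outer variable `T₀`. -/
noncomputable def ev2 (F : Type u) {F' : Type v} [Field F] [Field F'] [Algebra F F'] (y₀ T₀ : F') :
    F[X][X] →+* F' := eval₂RingHom (aeval y₀).toRingHom T₀

/-- The ideal of the point `(y₀, T₀)`: inner variable `Y`, outer variable `T`. -/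
noncomputable def kerP (F : Type u) {F' : Type v} [Field F] [Field F'] [Algebra F F'] (y₀ T₀ : F') :
    Ideal F[X][X] := RingHom.ker (ev2 F y₀ T₀)

instance kerP_isPrime (y₀ T₀ : F') : (kerP F y₀ T₀).IsPrime := RingHom.ker_isPrime _

theorem mem_kerP {y₀ T₀ : F'} {P : F[X][X]} : P ∈ kerP F y₀ T₀ ↔ ev2 F y₀ T₀ P = 0 :=
  Iff.rfl

theorem ev2_C (y₀ T₀ : F') (f : F[X]) : ev2 F y₀ T₀ (C f) = aeval y₀ f := eval₂_C _ _

theorem ev2_X (y₀ T₀ : F') : ev2 F y₀ T₀ X = T₀ := eval₂_X _ _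

/-- Inner variable `T`, outer variable `Y`. -/
theorem pow_dvd_aux {T₀ y₀ : F'} (hT : IsIntegral F T₀) (hy : IsIntegral F y₀) {n : ℕ} {f : F[X]}
    (hf : (C f : F[X][X]) ∈ (kerP F T₀ y₀) ^ n) : minpoly F T₀ ^ n ∣ f := by
  set m := minpoly F T₀ with hm
  have : Fact (Irreducible m) := ⟨minpoly.irreducible hT⟩
  -- the field `F[T]/(m)`
  let ψ : AdjoinRoot m →+* F' := AdjoinRoot.lift (algebraMap F F') T₀ (by
    have := minpoly.aeval F T₀
    rwa [aeval_def] at this)
  let _ : Algebra (AdjoinRoot m) F' := ψ.toAlgebra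
  have hψ : ∀ g : F[X], algebraMap (AdjoinRoot m) F' (AdjoinRoot.mk m g) = aeval T₀ g := fun g =>
    AdjoinRoot.lift_mk _ _
  have hψ' : (algebraMap (AdjoinRoot m) F').comp (AdjoinRoot.mk m) = (aeval T₀).toRingHom :=
    RingHom.ext hψ
  have : IsScalarTower F (AdjoinRoot m) F' := IsScalarTower.of_algebraMap_eq fun x => by
    have := hψ (C x)
    rw [aeval_C] at this
    rw [← this]
    rfl
  have hy1 : IsIntegral (AdjoinRoot m) y₀ := hy.tower_top
  -- a lift of the minimal polynomial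
  obtain ⟨h, hh1, hh2, hh3⟩ := lifts_and_natDegree_eq_and_monic (f := AdjoinRoot.mk m)
    (p := minpoly (AdjoinRoot m) y₀) (by
      rw [lifts_iff_coeff_lifts]
      intro i
      obtain ⟨g, hg⟩ := AdjoinRoot.mk_surjective (g := m) ((minpoly (AdjoinRoot m) y₀).coeff i)
      exact ⟨g, hg⟩) (minpoly.monic hy1)
  have hh4 : 0 < h.natDegree := by
    rw [hh2]
    exact minpoly.natDegree_pos hy1
  -- the image of the ideal
  have key : ∀ P ∈ kerP F T₀ y₀, (AdjoinRoot.mk h) (C m) ∣ AdjoinRoot.mk h P := by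
    intro P hP
    have h1 : aeval y₀ (P.map (AdjoinRoot.mk m)) = 0 := by
      rw [aeval_def, eval₂_map, hψ']
      exact hP
    obtain ⟨Q', hQ'⟩ := minpoly.dvd (AdjoinRoot m) y₀ h1
    obtain ⟨Q, rfl⟩ := map_surjective (AdjoinRoot.mk m) AdjoinRoot.mk_surjective Q'
    have h2 : (P - h * Q).map (AdjoinRoot.mk m) = 0 := by
      rw [Polynomial.map_sub, Polynomial.map_mul, hh1, hQ', sub_self]
    have h3 : C m ∣ P - h * Q := by
      rw [C_dvd_iff_dvd_coeff]
      intro i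
      rw [← AdjoinRoot.mk_eq_zero, ← coeff_map, h2, coeff_zero]
    have h4 := map_dvd (AdjoinRoot.mk h) h3
    rwa [map_sub, map_mul, AdjoinRoot.mk_self, zero_mul, sub_zero] at h4
  have h5 := pow_dvd_map (AdjoinRoot.mk h) (kerP F T₀ y₀) ((AdjoinRoot.mk h) (C m)) key n hf
  obtain ⟨s, hs⟩ := h5
  -- the coordinate of `1`
  have h6 : (C f : F[X][X]) = C (m ^ n) * AdjoinRoot.modByMonicHom hh3 s := by
    have h7 : AdjoinRoot.modByMonicHom hh3 (AdjoinRoot.mk h (C f)) = C f := by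
      rw [AdjoinRoot.modByMonicHom_mk, modByMonic_eq_self_iff hh3]
      exact degree_C_le.trans_lt (by
        rw [degree_eq_natDegree hh3.ne_zero]
        exact_mod_cast hh4)
    have h8 : (AdjoinRoot.mk h (C m)) ^ n * s = (m ^ n) • s := by
      rw [← map_pow, ← C_pow, Algebra.smul_def]
      rfl
    rw [← h7, hs, h8, map_smul, smul_eq_C_mul]
  refine ⟨(AdjoinRoot.modByMonicHom hh3 s).coeff 0, ?_⟩
  have h9 := congrArg (fun P => coeff P 0) h6
  simpa only [coeff_C_zero, coeff_C_mul] using h9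

theorem ev2_swap (y₀ T₀ : F') (P : F[X][X]) : ev2 F T₀ y₀ (Bivariate.swap P) = ev2 F y₀ T₀ P := by
  have h : (ev2 F T₀ y₀).comp (Bivariate.swap (R := F)).toRingEquiv.toRingHom = ev2 F y₀ T₀ := by
    refine ringHom_ext' (ringHom_ext' ?_ ?_) ?_
    · ext x
      change ev2 F T₀ y₀ (Bivariate.swap (C (C x))) = ev2 F y₀ T₀ (C (C x))
      rw [Bivariate.swap_apply]
      simp [ev2_C]
    · change ev2 F T₀ y₀ (Bivariate.swap (C X)) = ev2 F y₀ T₀ (C X)
      rw [Bivariate.swap_X, ev2_X, ev2_C, aeval_X]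
    · change ev2 F T₀ y₀ (Bivariate.swap X) = ev2 F y₀ T₀ X
      rw [Bivariate.swap_Y, ev2_X, ev2_C, aeval_X]
  exact congrArg (fun φ : F[X][X] →+* F' => φ P) h

theorem swap_mem_pow {y₀ T₀ : F'} {n : ℕ} {P : F[X][X]} (hP : P ∈ (kerP F y₀ T₀) ^ n) :
    Bivariate.swap P ∈ (kerP F T₀ y₀) ^ n := by
  have h1 : kerP F y₀ T₀ ≤ (kerP F T₀ y₀).comap (Bivariate.swap (R := F)).toRingEquiv.toRingHom :=
    fun Q hQ => by
      rw [Ideal.mem_comap, mem_kerP]
      exact (ev2_swap y₀ T₀ Q).trans hQ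
  exact (Ideal.pow_right_mono h1 n).trans (Ideal.le_comap_pow _ n) hP

theorem swap_map_C (f : F[X]) : Bivariate.swap (f.map C : F[X][X]) = C f := by
  induction f using Polynomial.induction_on' with
  | add f g hf hg => rw [Polynomial.map_add, map_add, hf, hg, C_add]
  | monomial n a =>
    rw [← C_mul_X_pow_eq_monomial, Polynomial.map_mul, Polynomial.map_pow, map_C, map_X, map_mul,
      map_pow, Bivariate.swap_Y, C_mul, C_pow]
    congr 1
    rw [Bivariate.swap_apply]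
    simp

/-- **L6.** If `f(T)` is in the `n`-th power of the ideal of the point `(y₀, T₀)`, it is divisible
by the `n`-th power of the minimal polynomial of `T₀`. -/
theorem pow_dvd_of_mem {y₀ T₀ : F'} (hy : IsIntegral F y₀) (hT : IsIntegral F T₀) {n : ℕ} {f : F[X]}
    (hf : (f.map C : F[X][X]) ∈ (kerP F y₀ T₀) ^ n) : minpoly F T₀ ^ n ∣ f := by
  have h := swap_mem_pow hf
  rw [swap_map_C] at h
  exact pow_dvd_aux hT hy h

/-- **L6**, the degree count. -/
theorem mul_le_of_mem {y₀ T₀ : F'} (hy : IsIntegral F y₀) (hT : IsIntegral F T₀) {n : ℕ} {f : F[X]}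
    (hf : (f.map C : F[X][X]) ∈ (kerP F y₀ T₀) ^ n) (hf0 : f ≠ 0) :
    n * (minpoly F T₀).natDegree ≤ f.natDegree := by
  rw [← natDegree_pow]
  exact natDegree_le_of_dvd (pow_dvd_of_mem hy hT hf) hf0

/-- The derivation `∂/∂Y` of `F[Y][T]`. -/
noncomputable def dY (F : Type u) [Field F] : Derivation F F[X][X] F[X][X] := coD derivative'

/-- **L6**, the order of the form of two terms. -/
theorem order_two (p : ℕ) [Fact p.Prime] [CharP F p] {y₀ T₀ : F'} (hy : IsIntegral F y₀)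
    (hT : IsIntegral F T₀) {n q : ℕ} {E₀ E₁ : F[X]} {G : F[X][X]} (h0 : E₀.natDegree ≤ q)
    (h1 : E₁.natDegree ≤ q)
    (hD : E₁ ≠ 0 ∨ ∃ D : Derivation ℤ F F, D (E₀.coeff q) ≠ 0)
    (h : E₀.map C + C X * E₁.map C - G ^ p ∈ (kerP F y₀ T₀) ^ (n + 1)) :
    n * (minpoly F T₀).natDegree ≤ q := by
  by_cases hE : E₁ = 0
  · -- a derivation of `F`
    obtain ⟨D, hDq⟩ := hD.resolve_left (fun h => h hE)
    subst hE
    have h2 := map_mem_pow (coD (coD D)) _ _ h
    have h3 : coD (coD D) (E₀.map C + C X * (0 : F[X]).map C - G ^ p) = (coD D E₀).map C := by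
      rw [Polynomial.map_zero, mul_zero, add_zero, map_sub, der_pow_char, sub_zero]
      ext i : 1
      rw [coD_coeff, coeff_map, coeff_map, coD_C, coD_coeff]
    rw [h3] at h2
    refine (mul_le_of_mem hy hT h2 fun h0 => hDq ?_).trans ((coD_natDegree_le D E₀).trans h0)
    rw [← coD_coeff, h0, coeff_zero]
  · have h2 := map_mem_pow (dY F) _ _ h
    have h3 : dY F (E₀.map C + C X * E₁.map C - G ^ p) = E₁.map C := by
      rw [map_sub, der_pow_char, sub_zero]
      ext i : 1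
      rw [dY, coD_coeff, coeff_add, coeff_C_mul, coeff_map, coeff_map, map_add, Derivation.leibniz]
      simp
    rw [h3] at h2
    exact (mul_le_of_mem hy hT h2 hE).trans h1

end Pool.Agent.TWB
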