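import Pool.Agent.Lib.TWB.L6
import Pool.Agent.Lib.TWB.GA1

/-!
# TANK B112, algebra: order one at the kernel of `F[Y, T] → F'`, `p = 2` (L6, `q = 2`)

`two_false`: `p = 2`, `y₀, T₀ ∉ F`; the form of `a₀ + a₂ T ^ 2 + (b₀ + b₂ T ^ 2) Y`, with `b₂ ≠ 0`
or `a₂ ∉ F ^ 2`, is unimodular at the point `(y₀, T₀)`.
-/

set_option autoImplicit false

open Polynomial

namespace Pool.Agent.TWB

universe u v

variable {F : Type u} {F' : Type v} [Field F] [Field F'] [Algebra F F']

theorem ev2_map_C (y₀ T₀ : F') (f : F[X]) : ev2 F y₀ T₀ (f.map C) = aeval T₀ f := by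
  have h : (ev2 F y₀ T₀).comp (mapRingHom (C : F →+* F[X])) = (aeval T₀).toRingHom := by
    refine ringHom_ext' ?_ ?_
    · ext x
      change ev2 F y₀ T₀ ((C x).map C) = aeval T₀ (C x)
      rw [map_C, ev2_C, aeval_C, aeval_C]
    · change ev2 F y₀ T₀ (X.map C) = aeval T₀ X
      rw [map_X, ev2_X, aeval_X]
  exact congrArg (fun φ : F[X] →+* F' => φ f) h

theorem coD_coD_map (D : Derivation ℤ F F) (E₀ E₁ : F[X]) :
    coD (coD D) (E₀.map C + C X * E₁.map C) =
      ((coD D E₀).map C + C X * (coD D E₁).map C : F[X][X]) := by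
  ext i : 1
  rw [coD_coeff, coeff_add, coeff_add, coeff_C_mul, coeff_C_mul, coeff_map, coeff_map, coeff_map,
    coeff_map, map_add, Derivation.leibniz, coD_C, coD_C, coD_X, coD_coeff, coD_coeff, smul_zero,
    add_zero, smul_eq_mul]

/-- The first order conditions at the point `(y₀, T₀)`. -/
theorem first_order (p : ℕ) [Fact p.Prime] [CharP F p] {y₀ T₀ : F'} {E₀ E₁ : F[X]} {G : F[X][X]}
    (h : E₀.map C + C X * E₁.map C - G ^ p ∈ (kerP F y₀ T₀) ^ 2) :
    aeval T₀ E₁ = 0 ∧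
      ∀ D : Derivation ℤ F F, aeval T₀ (coD D E₀) + y₀ * aeval T₀ (coD D E₁) = 0 := by
  constructor
  · have h2 := map_mem_pow (dY F) _ 1 h
    have h3 : dY F (E₀.map C + C X * E₁.map C - G ^ p) = E₁.map C := by
      rw [map_sub, der_pow_char, sub_zero]
      ext i : 1
      rw [dY, coD_coeff, coeff_add, coeff_C_mul, coeff_map, coeff_map, map_add, Derivation.leibniz]
      simp
    rw [h3, pow_one, mem_kerP, ev2_map_C] at h2
    exact h2
  · intro D
    have h2 := map_mem_pow (coD (coD D)) _ 1 h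
    rw [map_sub, der_pow_char, sub_zero, coD_coD_map, pow_one, mem_kerP, map_add, map_mul,
      ev2_map_C, ev2_map_C, ev2_C, aeval_X] at h2
    exact h2

/-- The field of the elements `u ^ 2 + v ^ 2 a`, in characteristic two. -/
def sqF (F : Type u) [Field F] [CharP F 2] (a : F) : Subfield F where
  carrier := {x | ∃ u v : F, u ^ 2 + v ^ 2 * a = x}
  mul_mem' := by
    rintro _ _ ⟨u, v, rfl⟩ ⟨u', v', rfl⟩
    refine ⟨u * u' + v * v' * a, u * v' + v * u', ?_⟩
    rw [CharTwo.add_sq, CharTwo.add_sq]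
    ring
  one_mem' := ⟨1, 0, by simp⟩
  add_mem' := by
    rintro _ _ ⟨u, v, rfl⟩ ⟨u', v', rfl⟩
    refine ⟨u + u', v + v', ?_⟩
    rw [CharTwo.add_sq, CharTwo.add_sq]
    ring
  zero_mem' := ⟨0, 0, by simp⟩
  neg_mem' := by
    rintro _ ⟨u, v, rfl⟩
    exact ⟨u, v, (CharTwo.neg_eq _).symm⟩
  inv_mem' := by
    rintro _ ⟨u, v, rfl⟩
    set x := u ^ 2 + v ^ 2 * a with hx
    by_cases h0 : x = 0
    · exact ⟨0, 0, by rw [h0]; simp⟩
    · refine ⟨u / x, v / x, ?_⟩
      field_simp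
      exact hx.symm

theorem exists_der_two [CharP F 2] {a b : F} (h : ∀ u v : F, u ^ 2 + v ^ 2 * a ≠ b) :
    ∃ D : Derivation ℤ F F, D a = 0 ∧ D b ≠ 0 := by
  have : Fact (Nat.Prime 2) := ⟨Nat.prime_two⟩
  obtain ⟨D, hD, hK⟩ := exists_der_rel 2 (K := sqF F a) (a := b)
    (fun x => ⟨x, 0, by simp⟩) (by
      rintro ⟨u, v, huv⟩
      exact h u v huv)
  exact ⟨D, hK a ⟨0, 1, by simp⟩, by rw [hD]; exact one_ne_zero⟩

/-- **L6, `q = 2`.** -/
theorem two_false [CharP F 2] {y₀ T₀ : F'} (hy : y₀ ∉ (algebraMap F F').range) (hT : T₀ ∉ (algebraMap F F').range)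
    {a₀ a₂ b₀ b₂ : F} (htop : b₂ ≠ 0 ∨ ∀ x : F, x ^ 2 ≠ a₂) {G : F[X][X]}
    (h : (C a₀ + C a₂ * X ^ 2 : F[X]).map C + C X * (C b₀ + C b₂ * X ^ 2 : F[X]).map C - G ^ 2 ∈
      (kerP F y₀ T₀) ^ 2) : False := by
  have : Fact (Nat.Prime 2) := ⟨Nat.prime_two⟩
  have hder : ∀ b : F, (∀ x : F, x ^ 2 ≠ b) → ∃ D : Derivation ℤ F F, D b ≠ 0 :=
    fun b hb => exists_der 2 hb
  have hF' : CharP F' 2 := charP_of_injective_algebraMap (algebraMap F F').injective 2
  have h2 : ∀ x : F', x + x = 0 := fun x => CharTwo.add_self_eq_zero x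
  have h2F : ∀ x : F, x + x = 0 := fun x => CharTwo.add_self_eq_zero x
  obtain ⟨h1, h3⟩ := first_order 2 h
  have hcoD : ∀ (D : Derivation ℤ F F) (a b : F),
      aeval T₀ (coD D (C a + C b * X ^ 2)) = algebraMap F F' (D a) + algebraMap F F' (D b) * T₀ ^ 2 := by
    intro D a b
    have : coD D (C a + C b * X ^ 2) = C (D a) + C (D b) * X ^ 2 := by
      rw [map_add, Derivation.leibniz, coD_C, coD_C, Derivation.leibniz_pow, coD_X]
      simp only [smul_eq_mul]
      ring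
    rw [this]
    simp
  simp only [hcoD] at h3
  have h4 : algebraMap F F' b₀ + algebraMap F F' b₂ * T₀ ^ 2 = 0 := by
    have := h1
    simp only [map_add, map_mul, map_pow, aeval_C, aeval_X] at this
    exact this
  by_cases hb : b₂ = 0
  · -- `E₁ = 0`
    subst hb
    have hb0 : b₀ = 0 := by
      rw [map_zero, zero_mul, add_zero] at h4
      exact (map_eq_zero _).1 h4
    subst hb0
    have ha := htop.resolve_left (fun h => h rfl)
    simp only [map_zero, zero_mul, add_zero, mul_zero] at h3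
    obtain ⟨D, hD⟩ := hder a₂ ha
    -- `T₀ ^ 2 = κ`
    have hκ : T₀ ^ 2 = algebraMap F F' (D a₀ / D a₂) := by
      have h5 := h3 D
      have h6 : algebraMap F F' (D a₂) ≠ 0 := (_root_.map_ne_zero _).2 hD
      rw [map_div₀, eq_div_iff h6, mul_comm]
      exact (add_eq_zero_iff_eq_neg.1 h5).trans (by rw [CharTwo.neg_eq]) |>.symm
    set κ := D a₀ / D a₂ with hκd
    have h5 : ∀ D : Derivation ℤ F F, D a₀ = κ * D a₂ := by
      intro D'
      have h6 := h3 D'
      rw [hκ, ← map_mul, ← map_add, map_eq_zero] at h6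
      rw [add_eq_zero_iff_eq_neg.1 h6, CharTwo.neg_eq, mul_comm]
    by_cases h6 : ∀ u v : F, u ^ 2 + v ^ 2 * a₂ ≠ a₀
    · obtain ⟨D', hD1, hD2⟩ := exists_der_two h6
      exact hD2 (by rw [h5 D', hD1, mul_zero])
    · push Not at h6
      obtain ⟨u, w, h6⟩ := h6
      have h7 : D a₀ = w ^ 2 * D a₂ := by
        rw [← h6, map_add, Derivation.leibniz, der_pow_char, der_pow_char, smul_zero, add_zero,
          zero_add, smul_eq_mul]
      have h8 : κ = w ^ 2 := by
        rw [hκd, h7, mul_div_assoc, div_self hD, mul_one]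
      rw [h8, map_pow] at hκ
      have h9 : T₀ = algebraMap F F' w := by
        have : (T₀ - algebraMap F F' w) ^ 2 = 0 := by
          rw [sub_pow_char, hκ, sub_self]
        exact sub_eq_zero.1 (pow_eq_zero_iff two_ne_zero |>.1 this)
      exact hT ⟨w, h9.symm⟩
  · -- `E₁ ≠ 0`
    set κ := b₀ / b₂ with hκd
    have hκ : T₀ ^ 2 = algebraMap F F' κ := by
      have h6 : algebraMap F F' b₂ ≠ 0 := (_root_.map_ne_zero _).2 hb
      rw [hκd, map_div₀, eq_div_iff h6, mul_comm]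
      exact ((add_eq_zero_iff_eq_neg.1 h4).trans (by rw [CharTwo.neg_eq])).symm
    have hb0 : b₀ = κ * b₂ := (div_mul_cancel₀ _ hb).symm
    have h5 : ∀ D : Derivation ℤ F F, D κ = 0 := by
      intro D
      have h6 := h3 D
      rw [hκ, ← map_mul, ← map_mul, ← map_add, ← map_add] at h6
      have h7 : D b₀ + D b₂ * κ = 0 := by
        by_contra h7
        have h8 : algebraMap F F' (D b₀ + D b₂ * κ) ≠ 0 := (_root_.map_ne_zero _).2 h7
        refine hy ⟨-(D a₀ + D a₂ * κ) / (D b₀ + D b₂ * κ), ?_⟩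
        rw [map_div₀, map_neg, div_eq_iff h8]
        exact (add_eq_zero_iff_neg_eq.1 h6)
      rw [hb0, Derivation.leibniz, smul_eq_mul, smul_eq_mul] at h7
      have h8 : b₂ * D κ = 0 := by
        have := h2F (κ * D b₂)
        linear_combination h7 - this
      exact (mul_eq_zero.1 h8).resolve_left hb
    by_cases h6 : ∀ x : F, x ^ 2 ≠ κ
    · obtain ⟨D, hD⟩ := hder κ h6
      exact hD (h5 D)
    · push Not at h6
      obtain ⟨w, hw⟩ := h6
      rw [← hw, map_pow] at hκ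
      have h9 : T₀ = algebraMap F F' w := by
        have : (T₀ - algebraMap F F' w) ^ 2 = 0 := by
          rw [sub_pow_char, hκ, sub_self]
        exact sub_eq_zero.1 (pow_eq_zero_iff two_ne_zero |>.1 this)
      exact hT ⟨w, h9.symm⟩

end Pool.Agent.TWB
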